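import Pool.Agent.Helper81.XP.StA

set_option autoImplicit false

/-!
MP_f90738_co, module DIM: a nonzero space of functions on `SL_2(F_p)`, invariant under right
translations and consisting of functions with sum zero, has dimension at least `(p - 1) / 2`.
-/

namespace Pool.Agent.Helper7.XP

open Pool.Agent.Helper81.XP

namespace DIM

variable {p : ℕ} [Fact p.Prime]

def uu (x : ZMod p) : SL (ZMod p) := ⟨!![1, x; 0, 1], by simp [Matrix.det_fin_two]⟩

def ll (x : ZMod p) : SL (ZMod p) := ⟨!![1, 0; x, 1], by simp [Matrix.det_fin_two]⟩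

def ww : SL (ZMod p) := ⟨!![0, 1; -1, 0], by simp [Matrix.det_fin_two]⟩

def dd (s : ZMod p) (hs : s ≠ 0) : SL (ZMod p) :=
  ⟨!![s⁻¹, 0; 0, s], by simp [Matrix.det_fin_two, hs]⟩

theorem uu_add (x y : ZMod p) : uu (x + y) = uu x * uu y := by
  apply Subtype.ext
  show (uu (x + y)).1 = (uu x).1 * (uu y).1
  simp only [uu]
  ext i j
  fin_cases i <;> fin_cases j <;> simp [Matrix.mul_apply, Fin.sum_univ_two, add_comm]

theorem uu_zero : uu (0 : ZMod p) = 1 := by
  apply Subtype.ext
  simp only [uu, Matrix.SpecialLinearGroup.coe_one]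
  ext i j
  fin_cases i <;> fin_cases j <;> simp

theorem ww_conj (x : ZMod p) : ww * uu x = ll (-x) * ww := by
  apply Subtype.ext
  show ww.1 * (uu x).1 = (ll (-x)).1 * ww.1
  simp only [uu, ll, ww]
  ext i j
  fin_cases i <;> fin_cases j <;> simp [Matrix.mul_apply, Fin.sum_univ_two]

theorem dd_conj (s : ZMod p) (hs : s ≠ 0) (x : ZMod p) :
    uu x * dd s hs = dd s hs * uu (x * s ^ 2) := by
  apply Subtype.ext
  show (uu x).1 * (dd s hs).1 = (dd s hs).1 * (uu (x * s ^ 2)).1
  simp only [uu, dd]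
  ext i j
  fin_cases i <;> fin_cases j <;> simp [Matrix.mul_apply, Fin.sum_univ_two]
  field_simp

/-- a normal subgroup containing `uu 1` is everything -/
theorem gen (K : Subgroup (SL (ZMod p))) (hn : ∀ g ∈ K, ∀ h : SL (ZMod p), h * g * h⁻¹ ∈ K)
    (h1 : uu 1 ∈ K) (g : SL (ZMod p)) : g ∈ K := by
  have hU : ∀ n : ℕ, uu ((n : ℕ) : ZMod p) ∈ K := by
    intro n
    induction n with
    | zero => rw [Nat.cast_zero, uu_zero]; exact K.one_mem
    | succ n ih => rw [Nat.cast_succ, uu_add]; exact K.mul_mem ih h1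
  have hU' : ∀ x : ZMod p, uu x ∈ K := by
    intro x
    have := hU x.val
    rwa [ZMod.natCast_zmod_val] at this
  have hL : ∀ x : ZMod p, ll x ∈ K := by
    intro x
    have h2 := hn _ (hU' (-x)) ww
    rw [ww_conj, neg_neg, mul_assoc, mul_inv_cancel, mul_one] at h2
    exact h2
  have key : ∀ g : SL (ZMod p), g.1 1 0 ≠ 0 → g ∈ K := by
    intro g hc
    have hdet := g.2
    rw [Matrix.det_fin_two] at hdet
    have he : g = uu ((g.1 0 0 - 1) / g.1 1 0) * ll (g.1 1 0) * uu ((g.1 1 1 - 1) / g.1 1 0) := by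
      apply Subtype.ext
      show g.1 = (uu ((g.1 0 0 - 1) / g.1 1 0)).1 * (ll (g.1 1 0)).1 *
        (uu ((g.1 1 1 - 1) / g.1 1 0)).1
      simp only [uu, ll]
      ext i j
      fin_cases i <;> fin_cases j <;> simp [Matrix.mul_apply, Fin.sum_univ_two]
      · field_simp
        ring
      · field_simp
        linear_combination -hdet
      · field_simp
        ring
    rw [he]
    exact K.mul_mem (K.mul_mem (hU' _) (hL _)) (hU' _)
  by_cases hc : g.1 1 0 = 0
  · have hd : g.1 1 1 ≠ 0 := by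
      intro h0
      have hdet := g.2
      rw [Matrix.det_fin_two, hc, h0] at hdet
      simp at hdet
    have h3 : (g * ll 1).1 1 0 ≠ 0 := by
      show ((g.1 : Matrix (Fin 2) (Fin 2) (ZMod p)) * (ll 1 : SL (ZMod p)).1 :
        Matrix (Fin 2) (Fin 2) (ZMod p)) 1 0 ≠ 0
      simp only [ll]
      simp [Matrix.mul_apply, Fin.sum_univ_two, hc, hd]
    have h4 := key _ h3
    have h5 := K.mul_mem h4 (K.inv_mem (hL 1))
    rwa [mul_assoc, mul_inv_cancel, mul_one] at h5
  · exact key g hc

end DIM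

open DIM in
theorem st_DIM : ST_DIM := by
  intro p hp h5 W hW hinv hsum
  classical
  have hp1 : 1 < p := hp.out.one_lt
  have hp0 : p ≠ 0 := hp.out.ne_zero
  -- the kernel
  let K : Subgroup (SL (ZMod p)) :=
    { carrier := {g | ∀ f ∈ W, ∀ x, f (x * g) = f x}
      mul_mem' := by
        intro a b ha hb f hf x
        rw [← mul_assoc, hb f hf, ha f hf]
      one_mem' := by
        intro f _ x
        rw [mul_one]
      inv_mem' := by
        intro a ha f hf x
        have := ha f hf (x * a⁻¹)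
        rw [mul_assoc, inv_mul_cancel, mul_one] at this
        exact this.symm }
  have hK : ∀ g, g ∈ K ↔ ∀ f ∈ W, ∀ x, f (x * g) = f x := fun g => Iff.rfl
  have hKn : ∀ g ∈ K, ∀ h : SL (ZMod p), h * g * h⁻¹ ∈ K := by
    intro g hg h
    rw [hK] at hg ⊢
    intro f hf x
    have h1 : f (x * h * g * h⁻¹) = f (x * h * h⁻¹) := hg _ (hinv f hf h⁻¹) (x * h)
    rw [show x * (h * g * h⁻¹) = x * h * g * h⁻¹ by group, h1]
    rw [mul_assoc, mul_inv_cancel, mul_one]
  -- `uu 1` is not in the kernel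
  have hu : uu (1 : ZMod p) ∉ K := by
    intro hu
    apply hW
    rw [Submodule.eq_bot_iff]
    intro f hf
    have hcon : ∀ g, f g = f 1 := by
      intro g
      have := gen K hKn hu g f hf 1
      rwa [one_mul] at this
    have hs := hsum f hf
    rw [Finset.sum_congr rfl (fun x _ => hcon x), Finset.sum_const, nsmul_eq_mul] at hs
    have hc : ((Finset.univ : Finset (SL (ZMod p))).card : ℂ) ≠ 0 := by
      rw [Nat.cast_ne_zero]
      exact Finset.card_ne_zero_of_mem (Finset.mem_univ 1)
    have h1 : f 1 = 0 := by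
      rcases mul_eq_zero.1 hs with h | h
      · exact absurd h hc
      · exact h
    ext g
    rw [hcon g, h1]
    rfl
  -- an eigenvector
  have heig : ∃ ζ : ℂ, ζ ^ p = 1 ∧ ζ ≠ 1 ∧ ∃ f ∈ W, f ≠ 0 ∧ ∀ x, f (x * uu 1) = ζ * f x := by
    by_contra hno
    push Not at hno
    apply hu
    rw [hK]
    intro f hf x
    obtain ⟨ξ, hξ⟩ : ∃ ξ : ℂ, IsPrimitiveRoot ξ p := ⟨_, Complex.isPrimitiveRoot_exp p hp0⟩
    let F : ℂ → SL (ZMod p) → ℂ := fun z x => ∑ k ∈ Finset.range p, z ^ k * f (x * uu (k : ZMod p))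
    have hF : ∀ z x, F z x = ∑ k ∈ Finset.range p, z ^ k * f (x * uu (k : ZMod p)) :=
      fun z x => rfl
    have hFW : ∀ z, F z ∈ W := by
      intro z
      have : F z = ∑ k ∈ Finset.range p, z ^ k • (fun x => f (x * uu (k : ZMod p))) := by
        ext x
        rw [hF, Finset.sum_apply]
        rfl
      rw [this]
      exact Submodule.sum_mem _ (fun k _ => Submodule.smul_mem _ _ (hinv f hf _))
    have hFu : ∀ z : ℂ, z ^ p = 1 → ∀ x, z * F z (x * uu 1) = F z x := by
      intro z hz x
      rw [hF, hF, Finset.mul_sum]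
      have e1 : ∀ k ∈ Finset.range p, z * (z ^ k * f (x * uu 1 * uu (k : ZMod p))) =
          z ^ (k + 1) * f (x * uu ((k + 1 : ℕ) : ZMod p)) := by
        intro k _
        rw [mul_assoc x, ← uu_add, Nat.cast_succ, add_comm (k : ZMod p) 1, pow_succ]
        ring
      rw [Finset.sum_congr rfl e1]
      have e2 := Finset.sum_range_succ (fun k : ℕ => z ^ k * f (x * uu (k : ZMod p))) p
      have e3 := Finset.sum_range_succ' (fun k : ℕ => z ^ k * f (x * uu (k : ZMod p))) p
      rw [e2] at e3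
      simp only [hz, ZMod.natCast_self, Nat.cast_zero, pow_zero] at e3
      exact (add_right_cancel e3).symm
    have hFz : ∀ j ∈ Finset.range p, j ≠ 0 → F (ξ ^ j) = 0 := by
      intro j hj hj0
      by_contra hne
      have hj1 := Finset.mem_range.1 hj
      have hzp : (ξ ^ j) ^ p = 1 := by
        rw [← pow_mul, mul_comm, pow_mul, hξ.pow_eq_one, one_pow]
      have hz1 : ξ ^ j ≠ 1 := hξ.pow_ne_one_of_pos_of_lt hj0 hj1
      have hz0 : ξ ^ j ≠ 0 := by
        intro h0
        rw [h0, zero_pow hp0] at hzp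
        exact zero_ne_one hzp
      obtain ⟨x, hx⟩ := hno (ξ ^ j)⁻¹ (by rw [inv_pow, hzp, inv_one]) (by
        intro h
        exact hz1 (inv_eq_one.1 h)) (F (ξ ^ j)) (hFW _) hne
      apply hx
      rw [← hFu _ hzp x, ← mul_assoc, inv_mul_cancel₀ hz0, one_mul]
    have hsumF : ∀ x, (p : ℂ) * f x = F 1 x := by
      intro x
      have e1 : ∑ j ∈ Finset.range p, F (ξ ^ j) x = F 1 x := by
        have h0 : (0 : ℕ) ∈ Finset.range p := Finset.mem_range.2 hp.out.pos
        rw [← Finset.add_sum_erase _ _ h0, pow_zero, Finset.sum_eq_zero, add_zero]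
        intro j hj
        rw [hFz j (Finset.mem_of_mem_erase hj) (Finset.ne_of_mem_erase hj)]
        rfl
      have e2 : ∑ j ∈ Finset.range p, F (ξ ^ j) x = (p : ℂ) * f x := by
        simp only [hF]
        rw [Finset.sum_comm]
        have h0 : (0 : ℕ) ∈ Finset.range p := Finset.mem_range.2 hp.out.pos
        rw [← Finset.add_sum_erase _ _ h0]
        have hz : ∑ k ∈ (Finset.range p).erase 0, ∑ j ∈ Finset.range p,
            (ξ ^ j) ^ k * f (x * uu (k : ZMod p)) = 0 := by
          apply Finset.sum_eq_zero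
          intro k hk
          have hk0 := Finset.ne_of_mem_erase hk
          have hk1 := Finset.mem_range.1 (Finset.mem_of_mem_erase hk)
          rw [← Finset.sum_mul]
          have h3 : IsPrimitiveRoot (ξ ^ k) p := by
            apply hξ.pow_of_coprime
            exact ((Nat.Prime.coprime_iff_not_dvd hp.out).2 (fun hd =>
              absurd (Nat.le_of_dvd (Nat.pos_of_ne_zero hk0) hd) (not_le.2 hk1))).symm
          have h4 := h3.geom_sum_eq_zero hp1
          have h5 : ∑ j ∈ Finset.range p, (ξ ^ j) ^ k = ∑ j ∈ Finset.range p, (ξ ^ k) ^ j := by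
            apply Finset.sum_congr rfl
            intro j _
            rw [← pow_mul, ← pow_mul, mul_comm]
          rw [h5, h4, zero_mul]
        rw [hz, add_zero]
        simp [uu_zero]
      rw [← e1, e2]
    have h6 := hFu 1 (one_pow p) x
    rw [one_mul, ← hsumF, ← hsumF] at h6
    have hpc : (p : ℂ) ≠ 0 := Nat.cast_ne_zero.2 hp0
    exact mul_left_cancel₀ hpc h6
  obtain ⟨ζ, hζp, hζ1, f, hf, hf0, hfu⟩ := heig
  have hpow : ∀ (n : ℕ) (x), f (x * uu (n : ZMod p)) = ζ ^ n * f x := by
    intro n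
    induction n with
    | zero => intro x; rw [Nat.cast_zero, uu_zero, mul_one, pow_zero, one_mul]
    | succ n ih =>
      intro x
      rw [Nat.cast_succ, uu_add, ← mul_assoc, hfu, ih, pow_succ]
      ring
  -- the family of eigenvectors
  let m := (p - 1) / 2
  have hs : ∀ i : Fin m, ((i.1 + 1 : ℕ) : ZMod p) ≠ 0 := by
    intro i h
    rw [ZMod.natCast_eq_zero_iff] at h
    have h1 := Nat.le_of_dvd (Nat.succ_pos _) h
    have h2 := i.2
    omega
  let T : Module.End ℂ W :=
    { toFun := fun w => ⟨fun x => w.1 (x * uu 1), hinv w.1 w.2 _⟩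
      map_add' := fun a b => rfl
      map_smul' := fun c a => rfl }
  let v : Fin m → W := fun i => ⟨fun x => f (x * dd _ (hs i)), hinv f hf _⟩
  let μ : Fin m → ℂ := fun i => ζ ^ ((i.1 + 1) ^ 2)
  have hμ : Function.Injective μ := by
    intro i j hij
    have h1 : ζ ^ ((i.1 + 1) ^ 2) = ζ ^ ((j.1 + 1) ^ 2) := hij
    have hord : orderOf ζ = p := orderOf_eq_prime hζp hζ1
    have h2 : (i.1 + 1) ^ 2 ≡ (j.1 + 1) ^ 2 [MOD orderOf ζ] := by
      have hz0 : ζ ≠ 0 := by
        intro h0
        rw [h0, zero_pow hp0] at hζp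
        exact zero_ne_one hζp
      have hu1 : (Units.mk0 ζ hz0) ^ ((i.1 + 1) ^ 2) = (Units.mk0 ζ hz0) ^ ((j.1 + 1) ^ 2) := by
        apply Units.ext
        rw [Units.val_pow_eq_pow_val, Units.val_pow_eq_pow_val]
        exact h1
      have h3 := pow_eq_pow_iff_modEq.1 hu1
      have h4 : orderOf (Units.mk0 ζ hz0) = orderOf ζ := (orderOf_units (y := Units.mk0 ζ hz0)).symm
      rwa [h4] at h3
    rw [hord] at h2
    have h3 : (((i.1 + 1 : ℕ) : ZMod p)) ^ 2 = (((j.1 + 1 : ℕ) : ZMod p)) ^ 2 := by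
      have := (ZMod.natCast_eq_natCast_iff _ _ p).2 h2
      push_cast at this ⊢
      exact this
    rcases sq_eq_sq_iff_eq_or_eq_neg.1 h3 with h4 | h4
    · have h5 := (ZMod.natCast_eq_natCast_iff' _ _ p).1 h4
      have hi := i.2
      have hj := j.2
      rw [Nat.mod_eq_of_lt (by omega), Nat.mod_eq_of_lt (by omega)] at h5
      exact Fin.ext (by omega)
    · exfalso
      have h5 : ((i.1 + 1 + (j.1 + 1) : ℕ) : ZMod p) = 0 := by
        rw [Nat.cast_add, h4, neg_add_cancel]
      rw [ZMod.natCast_eq_zero_iff] at h5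
      have h6 := Nat.le_of_dvd (by omega) h5
      have hi := i.2
      have hj := j.2
      omega
  have hv : ∀ i, T.HasEigenvector (μ i) (v i) := by
    intro i
    rw [Module.End.hasEigenvector_iff, Module.End.mem_eigenspace_iff]
    constructor
    · apply Subtype.ext
      funext x
      show f (x * uu 1 * dd _ (hs i)) = ζ ^ ((i.1 + 1) ^ 2) * f (x * dd _ (hs i))
      rw [mul_assoc, dd_conj, ← mul_assoc, one_mul]
      have h1 : (((i.1 + 1 : ℕ) : ZMod p)) ^ 2 = (((i.1 + 1) ^ 2 : ℕ) : ZMod p) := by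
        push_cast
        rfl
      rw [h1, hpow]
    · intro h0
      apply hf0
      have h1 : (fun x => f (x * dd _ (hs i))) = (0 : SL (ZMod p) → ℂ) := congrArg Subtype.val h0
      funext x
      have h2 : f (x * (dd _ (hs i))⁻¹ * dd _ (hs i)) = 0 :=
        congrFun h1 (x * (dd _ (hs i))⁻¹)
      rw [mul_assoc, inv_mul_cancel, mul_one] at h2
      exact h2
  have hli := Module.End.eigenvectors_linearIndependent' T μ hμ v hv
  have hcard := hli.fintype_card_le_finrank
  rw [Fintype.card_fin] at hcard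
  have hodd : p % 2 = 1 := by
    rcases hp.out.eq_two_or_odd with h | h
    · omega
    · exact h
  have : m = (p - 1) / 2 := rfl
  omega

end Pool.Agent.Helper7.XP
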