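import Pool.Agent.Helper81.XP.StA

set_option autoImplicit false

/-!
MP_f90738_co, module ITR: iteration of the flattening lemma.
-/

namespace Pool.Agent.Helper7.XP

open Pool.Agent.Helper81.XP

theorem itr_N2_le_one {G : Type} [Group G] [Fintype G] (ν : G → ℝ) (h : SP ν) : N2 ν ≤ 1 := by
  have h1 : ∀ x, ν x ≤ 1 := by
    intro x
    rw [← h.2.1]
    exact Finset.single_le_sum (fun y _ => h.1 y) (Finset.mem_univ x)
  calc N2 ν = ∑ x, ν x ^ 2 := rfl
    _ ≤ ∑ x, ν x := by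
        apply Finset.sum_le_sum
        intro x _
        rw [pow_two]
        exact mul_le_of_le_one_left (h.1 x) (h1 x)
    _ = 1 := h.2.1

theorem itr_N2_nonneg {G : Type} [Fintype G] (ν : G → ℝ) : 0 ≤ N2 ν :=
  Finset.sum_nonneg (fun _ _ => sq_nonneg _)

theorem st_ITR (hF : ST_FLT) (hW : ST_WLK) (hY : ST_YNG) : ST_ITR := by
  obtain ⟨C, hC, hF⟩ := hF
  refine ⟨C, hC, ?_⟩
  intro p hp h5 a b j J K δ hK hlog hpK hcm hδ
  have hstep : ∀ i, mu a b (2 ^ (j + (i + 1))) =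
      cv (mu a b (2 ^ (j + i))) (mu a b (2 ^ (j + i))) := by
    intro i
    have h1 := (hW (SL (ZMod p)) a b (2 ^ (j + i)) (2 ^ (j + i))).2.1
    have h2 : 2 ^ (j + (i + 1)) = 2 ^ (j + i) + 2 ^ (j + i) := by
      rw [← add_assoc, pow_succ]
      ring
    rw [h2]
    exact h1
  have hSP : ∀ i, SP (mu a b (2 ^ (j + i))) := fun i =>
    (hW (SL (ZMod p)) a b 0 (2 ^ (j + i))).1
  have hcmi : ∀ i, ∀ H : Subgroup (SL (ZMod p)), H ≠ ⊤ → ∀ g,
      cm (mu a b (2 ^ (j + i))) g H ≤ δ := by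
    intro i H hH g
    have h1 := (hW (SL (ZMod p)) a b (2 ^ (j + i) - 2 ^ j) (2 ^ j)).2.2.2.1 H δ (hcm H hH) g
    have h2 : 2 ^ (j + i) - 2 ^ j + 2 ^ j = 2 ^ (j + i) :=
      Nat.sub_add_cancel (Nat.pow_le_pow_right (by norm_num) (Nat.le_add_right _ _))
    rwa [h2] at h1
  have hmon : ∀ i, N2 (mu a b (2 ^ (j + (i + 1)))) ≤ N2 (mu a b (2 ^ (j + i))) := by
    intro i
    rw [hstep]
    exact (hY (SL (ZMod p)) _ _ (hSP i).1 (hSP i).2.1).1
  have hp3 : (0 : ℝ) ≤ (p : ℝ) ^ 3 := by positivity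
  have hK0 : (0 : ℝ) < K := by linarith
  have main : ∀ i, N2 (mu a b (2 ^ (j + i))) * (p : ℝ) ^ 3 ≤ C * K ^ C ∨
      K ^ (2 * i) * N2 (mu a b (2 ^ (j + i))) ≤ N2 (mu a b (2 ^ j)) := by
    intro i
    induction i with
    | zero => right; simp
    | succ i ih =>
      have key : N2 (mu a b (2 ^ (j + i))) * (p : ℝ) ^ 3 ≤ C * K ^ C →
          N2 (mu a b (2 ^ (j + (i + 1)))) * (p : ℝ) ^ 3 ≤ C * K ^ C := fun h =>
        (mul_le_mul_of_nonneg_right (hmon i) hp3).trans h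
      rcases ih with h | h
      · exact Or.inl (key h)
      · rcases hF p h5 _ (hSP i) K δ hK hlog (hcmi i) hδ with h2 | h2
        · right
          rw [← hstep i] at h2
          calc K ^ (2 * (i + 1)) * N2 (mu a b (2 ^ (j + (i + 1))))
              = K ^ (2 * i) * (K ^ 2 * N2 (mu a b (2 ^ (j + (i + 1))))) := by ring
            _ ≤ K ^ (2 * i) * N2 (mu a b (2 ^ (j + i))) :=
                mul_le_mul_of_nonneg_left h2 (pow_nonneg hK0.le _)
            _ ≤ _ := h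
        · exact Or.inl (key h2)
  rcases main J with h | h
  · exact h
  · have h1 : N2 (mu a b (2 ^ j)) ≤ 1 := itr_N2_le_one _ (hSP 0)
    have h2 : (p : ℝ) ^ 3 * N2 (mu a b (2 ^ (j + J))) ≤
        K ^ (2 * J) * N2 (mu a b (2 ^ (j + J))) :=
      mul_le_mul_of_nonneg_right hpK (itr_N2_nonneg _)
    have h3 : (1 : ℝ) ≤ C * K ^ C := by
      have h4 : (1 : ℝ) ≤ (C : ℝ) := by exact_mod_cast hC
      have h5 : (1 : ℝ) ≤ K ^ C := one_le_pow₀ hK
      nlinarith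
    rw [mul_comm]
    linarith

end Pool.Agent.Helper7.XP
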